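import Mathlib
import Pool.Agent.H154Z.Bip.Final

set_option autoImplicit false

namespace Pool.Agent.Results.MP_2948f4_lc.ANoUltrafilter

open Pool.Agent.H164Z.Bspt (IsZF)
open Pool.Agent.H154Z.Bip (DC Codes HasColouring IsFreeUltrafilter memOf)

/-- For every Borel graph `Γ` without odd cycles on a Polish space, every Borel injection `code` of
the space into the Cantor space and every real `c` there is a transitive model of ZF + DC that
contains `c` and a `2`-colouring of `Γ` and contains no nonprincipal ultrafilter on the natural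
numbers. -/
theorem result (X : Type) [TopologicalSpace X] [PolishSpace X] (Γ : SimpleGraph X)
    (hBorel : @MeasurableSet _ (borel (X × X)) {p | Γ.Adj p.1 p.2})
    (hBip : ∀ v (w : Γ.Walk v v), w.IsCycle → Even w.length)
    (code : X → ℕ → Bool) (hInj : Function.Injective code)
    (hMeas : @Measurable _ _ (borel X) (borel (ℕ → Bool)) code) (c : ℕ → Bool) :
    ∃ M : ZFSet.{0}, M.IsTransitive ∧ IsZF (memOf M) ∧ DC (memOf M) ∧
      (∃ x, Codes (memOf M) x c) ∧ HasColouring (memOf M) Γ code ∧
      ¬ ∃ U, IsFreeUltrafilter (memOf M) U :=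
  Pool.Agent.H154Z.Bip.final Γ hBorel hBip code hInj hMeas c

end Pool.Agent.Results.MP_2948f4_lc.ANoUltrafilter
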